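import Pool.Agent.H31.XCE.Targets

/-! # Row LOG: from intervals to logarithmic averages -/

set_option autoImplicit false

namespace Pool.Agent.H5.XCE

open Finset Pool.Agent.H31.XCE

lemma hs_le (n : ℕ) : ∑ i ∈ Icc 1 n, (1 / (i : ℝ)) ≤ 1 + Real.log n := by
  have h := harmonic_le_one_add_log n
  rw [harmonic_eq_sum_Icc] at h
  push_cast at h
  simpa only [one_div] using h

lemma hs_le' (n : ℕ) : ∑ i ∈ range n, (1 / ((i : ℝ) + 1)) ≤ 1 + Real.log n := by
  have h := harmonic_le_one_add_log n
  rw [harmonic] at h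
  push_cast at h
  simpa only [one_div] using h

theorem pf_LOG : T_LOG := by
  classical
  intro Bd L X δ hL hX hδ hB
  have hL0 : (0 : ℝ) < L := by exact_mod_cast hL
  have hmap : ∀ y ∈ (Icc 1 X).filter Bd, y / L ∈ range (X / L + 1) := by
    intro y hy
    rw [mem_filter, mem_Icc] at hy
    exact mem_range.2 (Nat.lt_succ_of_le (Nat.div_le_div_right hy.1.2))
  rw [← Finset.sum_fiberwise_of_maps_to hmap, Finset.sum_range_succ']
  have h0 : ∑ y ∈ ((Icc 1 X).filter Bd).filter (fun y => y / L = 0), 1 / (y : ℝ) ≤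
      1 + Real.log L := by
    refine le_trans (Finset.sum_le_sum_of_subset_of_nonneg ?_ fun _ _ _ => by positivity)
      (hs_le L)
    intro y hy
    rw [mem_filter, mem_filter, mem_Icc] at hy
    have h1 : y < L := by
      by_contra h2
      have := Nat.div_pos (not_lt.1 h2) hL
      omega
    exact mem_Icc.2 ⟨hy.1.1.1, h1.le⟩
  have h1 : ∀ k ∈ range (X / L),
      ∑ y ∈ ((Icc 1 X).filter Bd).filter (fun y => y / L = k + 1), 1 / (y : ℝ) ≤
        δ * (1 / ((k : ℝ) + 1)) := by
    intro k _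
    have hk : (0 : ℝ) < (k : ℝ) + 1 := by positivity
    have hsub : ((Icc 1 X).filter Bd).filter (fun y => y / L = k + 1) ⊆
        (Ico ((k + 1) * L) ((k + 1) * L + L)).filter Bd := by
      intro y hy
      rw [mem_filter, mem_filter] at hy
      obtain ⟨⟨_, hb⟩, hyk⟩ := hy
      rw [mem_filter, mem_Ico]
      refine ⟨⟨?_, ?_⟩, hb⟩
      · rw [← hyk]
        exact Nat.div_mul_le_self y L
      · have h3 := Nat.lt_succ_of_le (le_refl (y / L))
        rw [Nat.div_lt_iff_lt_mul hL] at h3
        rw [hyk] at h3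
        calc y < (k + 1).succ * L := h3
          _ = (k + 1) * L + L := Nat.succ_mul _ _
    calc ∑ y ∈ ((Icc 1 X).filter Bd).filter (fun y => y / L = k + 1), 1 / (y : ℝ)
        ≤ ∑ y ∈ (Ico ((k + 1) * L) ((k + 1) * L + L)).filter Bd, 1 / (y : ℝ) :=
          Finset.sum_le_sum_of_subset_of_nonneg hsub fun _ _ _ => by positivity
      _ ≤ ∑ y ∈ (Ico ((k + 1) * L) ((k + 1) * L + L)).filter Bd,
            1 / (((k : ℝ) + 1) * L) := by
          refine Finset.sum_le_sum fun y hy => ?_
          rw [mem_filter, mem_Ico] at hy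
          have h4 : (((k + 1) * L : ℕ) : ℝ) ≤ (y : ℝ) := by exact_mod_cast hy.1.1
          push_cast at h4
          exact one_div_le_one_div_of_le (by positivity) h4
      _ = ((((Ico ((k + 1) * L) ((k + 1) * L + L)).filter Bd).card : ℕ) : ℝ) *
            (1 / (((k : ℝ) + 1) * L)) := by rw [Finset.sum_const, nsmul_eq_mul]
      _ ≤ (δ * L) * (1 / (((k : ℝ) + 1) * L)) :=
          mul_le_mul_of_nonneg_right (hB _) (by positivity)
      _ = δ * (1 / ((k : ℝ) + 1)) := by field_simp
  have h2 : ∑ k ∈ range (X / L), δ * (1 / ((k : ℝ) + 1)) ≤ δ * (1 + Real.log X) := by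
    rw [← Finset.mul_sum]
    refine mul_le_mul_of_nonneg_left ((hs_le' _).trans ?_) hδ
    have h5 : Real.log ((X / L : ℕ) : ℝ) ≤ Real.log X := by
      rcases Nat.eq_zero_or_pos (X / L) with h6 | h6
      · rw [h6, Nat.cast_zero, Real.log_zero]
        exact Real.log_nonneg (by exact_mod_cast hX)
      · exact Real.log_le_log (by exact_mod_cast h6) (by exact_mod_cast Nat.div_le_self X L)
    linarith
  have h3 := Finset.sum_le_sum h1
  linarith

end Pool.Agent.H5.XCE
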